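import Mathlib

set_option autoImplicit false

namespace Pool.Agent.H.MP_cf558f_lc

open Function

/-- expressions: constants, registers, memory reads, `+`, truncated `-`, `*` -/
inductive E | num (k : ℕ) | reg (i : ℕ) | ld (a : E) | add (a b : E) | sub (a b : E) | mul (a b : E)

/-- machine state: registers and random-access memory -/
structure St where
  r : ℕ → ℕ
  m : ℕ → ℕ

def E.ev (σ : St) : E → ℕ
  | num k => k
  | reg i => σ.r i
  | ld a => σ.m (a.ev σ)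
  | add a b => a.ev σ + b.ev σ
  | sub a b => a.ev σ - b.ev σ
  | mul a b => a.ev σ * b.ev σ

/-- every constant, sum and product met while evaluating is below the word bound `W` -/
def E.ok (W : ℕ) (σ : St) : E → Prop
  | num k => k < W
  | reg _ => True
  | ld a => a.ok W σ
  | add a b => a.ok W σ ∧ b.ok W σ ∧ a.ev σ + b.ev σ < W
  | sub a b => a.ok W σ ∧ b.ok W σ
  | mul a b => a.ok W σ ∧ b.ok W σ ∧ a.ev σ * b.ev σ < W

/-- programs: register write, memory write, sequence, `if a < b`, `while a < b` -/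
inductive P | set (i : ℕ) (e : E) | st (a e : E) | seq (p q : P) | ite (a b : E) (p q : P)
  | wh (a b : E) (p : P)

/-- `Run W p σ σ' t`: from `σ`, program `p` halts in `σ'` after `t` writes and tests, with no
overflow of the word bound `W` -/
inductive Run (W : ℕ) : P → St → St → ℕ → Prop
  | set {i e σ} : e.ok W σ → Run W (.set i e) σ ⟨update σ.r i (e.ev σ), σ.m⟩ 1
  | st {a e σ} : a.ok W σ → e.ok W σ → Run W (.st a e) σ ⟨σ.r, update σ.m (a.ev σ) (e.ev σ)⟩ 1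
  | seq {p q σ σ' σ'' s t} : Run W p σ σ' s → Run W q σ' σ'' t → Run W (.seq p q) σ σ'' (s + t)
  | iteT {a b p q σ σ' t} : a.ok W σ → b.ok W σ → a.ev σ < b.ev σ → Run W p σ σ' t →
      Run W (.ite a b p q) σ σ' (t + 1)
  | iteF {a b p q σ σ' t} : a.ok W σ → b.ok W σ → ¬a.ev σ < b.ev σ → Run W q σ σ' t →
      Run W (.ite a b p q) σ σ' (t + 1)
  | whF {a b p σ} : a.ok W σ → b.ok W σ → ¬a.ev σ < b.ev σ → Run W (.wh a b p) σ σ 1
  | whT {a b p σ σ' σ'' s t} : a.ok W σ → b.ok W σ → a.ev σ < b.ev σ → Run W p σ σ' s →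
      Run W (.wh a b p) σ' σ'' t → Run W (.wh a b p) σ σ'' (s + t + 1)

def Ht (W : ℕ) (p : P) (σ : St) (Q : St → Prop) (T : ℕ) : Prop :=
  ∃ σ' t, t ≤ T ∧ Run W p σ σ' t ∧ Q σ'

variable {W : ℕ}

theorem Ht.mono {p σ} {Q Q' : St → Prop} {T T'} (h : Ht W p σ Q T) (hT : T ≤ T')
    (hQ : ∀ σ, Q σ → Q' σ) : Ht W p σ Q' T' :=
  let ⟨σ', t, a, b, c⟩ := h; ⟨σ', t, a.trans hT, b, hQ _ c⟩

theorem Ht.set {i e σ} {Q : St → Prop} (h : E.ok W σ e) (hQ : Q ⟨update σ.r i (e.ev σ), σ.m⟩) :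
    Ht W (.set i e) σ Q 1 := ⟨_, _, le_rfl, .set h, hQ⟩

theorem Ht.st {a e σ} {Q : St → Prop} (h : E.ok W σ a) (h' : E.ok W σ e)
    (hQ : Q ⟨σ.r, update σ.m (a.ev σ) (e.ev σ)⟩) : Ht W (.st a e) σ Q 1 :=
  ⟨_, _, le_rfl, .st h h', hQ⟩

theorem Ht.seq {p q σ} {Q : St → Prop} {S T} (h : Ht W p σ (fun σ' => Ht W q σ' Q T) S) :
    Ht W (.seq p q) σ Q (S + T) :=
  let ⟨_, _, a, b, σ'', _, c, d, e⟩ := h; ⟨σ'', _, add_le_add a c, .seq b d, e⟩

theorem Ht.iteT {a b p q σ} {Q : St → Prop} {T} (h1 : E.ok W σ a) (h2 : E.ok W σ b)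
    (h3 : a.ev σ < b.ev σ) (h : Ht W p σ Q T) : Ht W (.ite a b p q) σ Q (T + 1) :=
  let ⟨σ', _, x, y, z⟩ := h; ⟨σ', _, by omega, .iteT h1 h2 h3 y, z⟩

theorem Ht.iteF {a b p q σ} {Q : St → Prop} {T} (h1 : E.ok W σ a) (h2 : E.ok W σ b)
    (h3 : ¬a.ev σ < b.ev σ) (h : Ht W q σ Q T) : Ht W (.ite a b p q) σ Q (T + 1) :=
  let ⟨σ', _, x, y, z⟩ := h; ⟨σ', _, by omega, .iteF h1 h2 h3 y, z⟩

theorem Ht.wh {a b p} {Q : St → Prop} (T : ℕ) (I : ℕ → St → Prop)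
    (h0 : ∀ k σ, I k σ → E.ok W σ a ∧ E.ok W σ b)
    (h1 : ∀ k σ, I k σ → a.ev σ < b.ev σ → Ht W p σ (fun σ' => ∃ k' < k, I k' σ') T)
    (h2 : ∀ k σ, I k σ → ¬a.ev σ < b.ev σ → Q σ) (k : ℕ) :
    ∀ σ, I k σ → Ht W (.wh a b p) σ Q (k * (T + 1) + 1) := by
  induction k using Nat.strong_induction_on with
  | _ k ih =>
    intro σ h
    by_cases c : a.ev σ < b.ev σ
    · obtain ⟨σ', s, x, y, k', hk, z⟩ := h1 k σ h c
      obtain ⟨σ'', t, u, v, w⟩ := ih k' hk σ' z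
      exact ⟨σ'', _, by nlinarith, .whT (h0 k σ h).1 (h0 k σ h).2 c y v, w⟩
    · exact ⟨σ, 1, by omega, .whF (h0 k σ h).1 (h0 k σ h).2 c, h2 k σ h c⟩

def tab (f : ℕ → ℕ) (x y : ℕ) : ℕ → P
  | 0 => .set y (.num 0)
  | k + 1 => .ite (.reg x) (.num k) (tab f x y k) (.set y (.num (f k)))

theorem Ht.tab {f : ℕ → ℕ} {x y : ℕ} {σ : St} {Q : St → Prop} {k : ℕ} (hk : k ≤ W)
    (h : σ.r x < k) (hf : f (σ.r x) < W) (hQ : Q ⟨update σ.r y (f (σ.r x)), σ.m⟩) :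
    Ht W (tab f x y k) σ Q (k + 1) := by
  induction k with
  | zero => omega
  | succ k ih =>
    by_cases c : σ.r x < k
    · exact .iteT (by trivial) hk c (ih (by omega) c)
    · have e : σ.r x = k := by omega
      exact (Ht.iteF (a := .reg x) (b := .num k) (by trivial) hk c
        (.set (e := .num (f k)) (e ▸ hf) (by rw [E.ev, ← e]; exact hQ))).mono (by omega)
        fun _ => id

variable {M : Type} [Monoid M] (d : ℕ → M) (c : M → ℕ) (K : ℕ)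

def pr (m : ℕ → ℕ) (i : ℕ) : ℕ → M
  | 0 => 1
  | k + 1 => pr m i k * d (m (i + k))

theorem pr_add (m : ℕ → ℕ) (i j k : ℕ) : pr d m i (j + k) = pr d m i j * pr d m (i + j) k := by
  induction k with
  | zero => simp [pr]
  | succ k ih => rw [← add_assoc, pr, pr, ih, mul_assoc, add_assoc]

theorem pr_congr {m m' : ℕ → ℕ} {i k : ℕ} (h : ∀ j < k, m (i + j) = m' (i + j)) :
    pr d m i k = pr d m' i k := by
  induction k with
  | zero => rfl
  | succ k ih => rw [pr, pr, ih fun j hj => h j (by omega), h k (by omega)]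

theorem blk {b b' : ℕ} (h : b < b') (B : ℕ) : b * B + B ≤ b' * B := by nlinarith

def Bl (m : ℕ → ℕ) (B k : ℕ) : Prop := ∀ b < k, d (m (B * B + b)) = pr d m (b * B) B

theorem Bl.pr {m : ℕ → ℕ} {B k : ℕ} (h : Bl d m B k) : ∀ b ≤ k, pr d m (B * B) b = pr d m 0 (b * B)
  | 0, _ => by simp [MP_cf558f_lc.pr]
  | b + 1, hb => by
    rw [MP_cf558f_lc.pr, h.pr b (by omega), h b hb, add_mul, one_mul, pr_add, zero_add]

def scan (g : ℕ → ℕ) : P :=
  .wh (.reg 3) (.reg 4) <| .seq (.set 5 (.add (.mul (.reg 2) (.num K)) (.ld (.reg 3)))) <|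
    .seq (tab (fun x => c (d (x / K) * d (x % K))) 5 6 (K * K)) <| .seq (tab g 6 7 K) <|
      .ite (.num 0) (.reg 7) (.set 4 (.reg 3))
        (.seq (.set 2 (.reg 6)) (.set 3 (.add (.reg 3) (.num 1))))

def recomp : P :=
  .seq (.set 2 (.num 0)) <| .seq (.set 7 (.num 0)) <| .seq (.set 3 (.mul (.reg 8) (.reg 1))) <|
    .seq (.set 4 (.add (.reg 3) (.reg 1))) <| .seq (scan d c K fun _ => 0) <|
      .st (.add (.reg 11) (.reg 8)) (.reg 2)

def body (g nx : ℕ → ℕ) : P :=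
  .seq (.set 2 (.reg 9)) <| .seq (.set 7 (.num 0)) <| .seq (.set 3 (.reg 11)) <|
    .seq (.set 4 (.add (.reg 11) (.reg 1))) <| .seq (scan d c K g) <|
      .ite (.num 0) (.reg 7) (.seq (.set 8 (.sub (.reg 3) (.reg 11))) <| .seq (.set 7 (.num 0)) <|
        .seq (.set 3 (.mul (.reg 8) (.reg 1))) <| .seq (.set 4 (.add (.reg 3) (.reg 1))) <|
          .seq (scan d c K g) <| .seq (tab nx 6 9 K) <| .seq (.st (.reg 3) (.num 0)) <|
            recomp d c K) (.set 10 (.num 0))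

def prog (g nx ot : ℕ → ℕ) (s0 : ℕ) : P :=
  .seq (.set 1 (.num 0)) <|
    .seq (.wh (.mul (.reg 1) (.reg 1)) (.reg 0) (.set 1 (.add (.reg 1) (.num 1)))) <|
      .seq (.set 11 (.mul (.reg 1) (.reg 1))) <| .seq (.set 8 (.num 0)) <|
        .seq (.wh (.reg 8) (.reg 1) (.seq (recomp d c K) (.set 8 (.add (.reg 8) (.num 1))))) <|
          .seq (.set 9 (.num s0)) <| .seq (.set 10 (.num 1)) <|
            .seq (.wh (.num 0) (.reg 10) (body d c K g nx)) (tab ot 2 0 K)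

variable {d c K} (hd : ∀ f, d (c f) = f) (hK : ∀ f, c f < K) (hW : K * K + 1 < W)
include hd hK hW

theorem scan_ok {g : ℕ → ℕ} {G : M → Prop} (g1 : ∀ f, G f → g (c f) = 1)
    (g0 : ∀ f, ¬G f → g (c f) = 0) {σ : St} {Q : St → Prop} {L : ℕ} (hm : ∀ i, σ.m i < K)
    (h2 : σ.r 2 < K) (h3 : σ.r 4 = σ.r 3 + L) (h4 : σ.r 4 < W) (h7 : σ.r 7 = 0)
    (hG : ¬G (d (σ.r 2)))
    (hQ : ∀ r' : ℕ → ℕ, (∀ i, i < 2 ∨ 7 < i → r' i = σ.r i) → r' 2 < K → ∀ j, r' 3 = σ.r 3 + j →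
      d (r' 2) = d (σ.r 2) * pr d σ.m (σ.r 3) j → ¬G (d (r' 2)) →
      (r' 7 = 0 ∧ j = L ∨ r' 7 = 1 ∧ j < L ∧ r' 6 = c (d (σ.r 2) * pr d σ.m (σ.r 3) (j + 1)) ∧
        G (d (σ.r 2) * pr d σ.m (σ.r 3) (j + 1))) → Q ⟨r', σ.m⟩) :
    Ht W (scan d c K g) σ Q (L * (K * K + K + 7) + 1) := by
  have K0 : 0 < K := by omega
  have K1 : K ≤ K * K := Nat.le_mul_self K
  refine Ht.wh (K * K + K + 6) (fun k τ => τ.m = σ.m ∧ (∀ i, i < 2 ∨ 7 < i → τ.r i = σ.r i) ∧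
    τ.r 2 < K ∧ ∃ j, τ.r 3 = σ.r 3 + j ∧ d (τ.r 2) = d (σ.r 2) * pr d σ.m (σ.r 3) j ∧
      ¬G (d (τ.r 2)) ∧ (τ.r 7 = 0 ∧ τ.r 4 = σ.r 4 ∧ j + k = L ∨ τ.r 7 = 1 ∧ j < L ∧
        τ.r 4 = τ.r 3 ∧ τ.r 6 = c (d (σ.r 2) * pr d σ.m (σ.r 3) (j + 1)) ∧
        G (d (σ.r 2) * pr d σ.m (σ.r 3) (j + 1)))) (fun _ _ _ => ⟨(by trivial), (by trivial)⟩) ?_ ?_ L σ
    ⟨rfl, fun _ _ => rfl, h2, 0, rfl, by simp [pr], hG, Or.inl ⟨h7, rfl, by omega⟩⟩
  · rintro k ⟨r, m⟩ ⟨rfl, a1, a2, j, a3, a4, a5, a6⟩ hc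
    simp only [E.ev] at hc a1 a2 a3 a4 a5 a6
    obtain ⟨b1, b2, b3⟩ := a6.resolve_right (by omega)
    have := hm (r 3)
    have x1 : r 2 * K + σ.m (r 3) < K * K := by nlinarith
    have x2 : c (d ((r 2 * K + σ.m (r 3)) / K) * d ((r 2 * K + σ.m (r 3)) % K)) =
        c (d (σ.r 2) * pr d σ.m (σ.r 3) (j + 1)) := by
      rw [mul_comm, Nat.mul_add_div K0, Nat.mul_add_mod, Nat.div_eq_of_lt this,
        Nat.mod_eq_of_lt this, add_zero, a4, pr, mul_assoc, a3]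
    set f := d (σ.r 2) * pr d σ.m (σ.r 3) (j + 1) with hf
    have := hK f
    refine Ht.mono (T := 1 + ((K * K + 1) + ((K + 1) + (2 + 1)))) (.seq (.set ?_ (.seq (.tab
      (by omega) (by simpa [E.ev] using x1) (by simp only [E.ev, update_self, x2]; omega)
      (.seq (.tab (by omega) (by simpa only [E.ev, update_self, x2]) ?_ ?_)))))) (by omega) fun _ => id
    · simp only [E.ok, E.ev, true_and]; omega
    · simp only [E.ev, update_self, x2]
      by_cases h : G f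
      · rw [g1 f h]; omega
      · rw [g0 f h]; omega
    simp only [E.ev, update_self, x2]
    by_cases h : G f
    · refine (Ht.iteT (by simp only [E.ok]; omega) (by trivial) (by simp [E.ev, g1 f h])
        (.set (by trivial) ⟨0, by omega, rfl, fun i hi => ?_, by simpa, j, ?_⟩)).mono (by omega)
        fun _ => id
      · simp only [update_apply]; rw [← a1 i hi]; split_ifs <;> omega
      · simp [E.ev, a3, a4, g1 f h, h, ← hf]
        exact ⟨a4 ▸ a5, by omega⟩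
    · refine Ht.iteF (by simp only [E.ok]; omega) (by trivial) (by simp [E.ev, g0 f h])
        (.seq (S := 1) (.set (by trivial) (.set (by simp [E.ok, E.ev]; omega) ⟨k - 1, by omega, rfl,
          fun i hi => ?_, by simpa [E.ev], j + 1, ?_⟩)))
      · simp only [update_apply]; rw [← a1 i hi]; split_ifs <;> omega
      · simp [E.ev, a3, hd, g0 f h, h, ← hf, b2]
        omega
  · rintro k ⟨r, m⟩ ⟨rfl, a1, a2, j, a3, a4, a5, a6⟩ hc
    simp only [E.ev] at hc a1 a2 a3 a4 a5 a6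
    exact hQ r a1 a2 j a3 a4 a5 (a6.imp (fun h => ⟨h.1, by omega⟩) fun h => ⟨h.1, h.2.1, h.2.2.2⟩)

theorem recomp_ok (d0 : d 0 = 1) {σ : St} {Q : St → Prop} {B : ℕ} (hm : ∀ i, σ.m i < K)
    (h1 : σ.r 1 = B) (h8 : σ.r 8 < B) (h11 : σ.r 11 = B * B) (hB : B * B + B < W)
    (hQ : ∀ r' : ℕ → ℕ, (∀ i, i < 2 ∨ 7 < i → r' i = σ.r i) → ∀ v < K,
      d v = pr d σ.m (σ.r 8 * B) B → Q ⟨r', update σ.m (B * B + σ.r 8) v⟩) :
    Ht W (recomp d c K) σ Q (B * (K * K + K + 7) + 6) := by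
  have K0 : 0 < K := (Nat.zero_le _).trans_lt (hm 0)
  have x1 : σ.r 8 * B + B ≤ B * B := by nlinarith
  refine Ht.mono (.seq (.set ?_ (.seq (.set ?_ (.seq (.set ?_ (.seq (.set ?_ (.seq
    (scan_ok hd hK hW (G := fun _ => False) (L := B) (by simp) (by simp) hm ?_ ?_ ?_ ?_ id
    fun r' a1 a2 j a3 a4 _ a6 => .st ?_ (by trivial) ?_)))))))))) (by omega) fun _ => id
  all_goals try (simp [E.ok, E.ev, h1]; omega)
  · simp [E.ev, h1]
  · simp [E.ev]
  · simp [E.ok, E.ev, a1, h11]; omega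
  · simp [E.ev, d0, h1] at a4 a6
    simp only [E.ev]
    rw [a1 11 (by omega), a1 8 (by omega)]
    simp only [ne_eq, Nat.reduceEqDiff, not_false_eq_true, update_of_ne, h11]
    refine hQ r' (fun i hi => ?_) _ a2 (by rw [a4, a6.2])
    rw [a1 i hi]
    simp only [update_apply]
    split_ifs <;> omega

theorem body_ok (d0 : d 0 = 1) {g nx ot : ℕ → ℕ} {G : M → Prop} (g1 : ∀ f, G f → g (c f) = 1)
    (g0 : ∀ f, ¬G f → g (c f) = 0) {Z : Prop}
    {I : ℕ → ℕ → (ℕ → ℕ) → Prop} (i0 : ∀ N s m, I N s m → s < K ∧ ¬G (d s))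
    (i1 : ∀ N s m, I N s m → ∀ j < N, ¬G (d s * pr d m 0 j) → G (d s * pr d m 0 (j + 1)) →
      ∀ m', (∀ i < N, m' i = update m j 0 i) → I N (nx (c (d s * pr d m 0 (j + 1)))) m')
    (i2 : ∀ N s m x, I N s m → d x = d s * pr d m 0 N → ¬G (d x) → (ot x = 1 ↔ Z))
    {B : ℕ} (B2 : B * B + B < W) (r m : ℕ → ℕ) (Q : St → Prop) (a1 : r 1 = B) (a11 : r 11 = B * B)
    (am : ∀ i, m i < K) (aB : Bl d m B B) (aI : I (B * B) (r 9) m)
    (q1 : ∀ τ' : St, τ'.r 1 = B → τ'.r 11 = B * B → (∀ i, τ'.m i < K) → τ'.r 10 = r 10 →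
      Bl d τ'.m B B → I (B * B) (τ'.r 9) τ'.m → ∀ j < B * B, m j ≠ 0 →
      (∀ i < B * B, τ'.m i = update m j 0 i) → Q τ')
    (q2 : ∀ τ' : St, τ'.r 10 = 0 → τ'.r 2 < K → (ot (τ'.r 2) = 1 ↔ Z) → Q τ') :
    Ht W (body d c K g nx) ⟨r, m⟩ Q (3 * (B * (K * K + K + 7)) + K + 20) := by
  have K0 : 0 < K := (Nat.zero_le _).trans_lt (am 0)
  have K1 : K ≤ K * K := Nat.le_mul_self K
  set C := K * K + K + 7 with hC
  refine Ht.mono (T := 1 + (1 + (1 + (1 + ((B * C + 1) + ((1 + (1 + (1 + (1 + ((B * C + 1) +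
    ((K + 1) + (1 + (B * C + 6)))))))) + 1)))))) (.seq (.set ?_ (.seq (.set ?_ (.seq (.set ?_
    (.seq (.set ?_ (.seq (scan_ok hd hK hW g1 g0 (L := B) am ?_ ?_ ?_ ?_ ?_
      fun r' b1 b2 b b3 b4 b5 b6 => ?_)))))))))) (by omega) fun _ => id
  iterate 4 (simp [E.ok, E.ev, a1, a11] <;> omega)
  · simpa [E.ev] using (i0 _ _ _ aI).1
  · simp [E.ev, a1]
  · simpa [E.ev, a1, a11]
  · simp [E.ev]
  · simpa [E.ev] using (i0 _ _ _ aI).2
  have f1 : ∀ i, i < 2 ∨ 7 < i → r' i = r i := fun i hi => by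
    rw [b1 i hi]; simp only [update_apply]; split_ifs <;> omega
  clear b1
  show Ht W _ ⟨r', m⟩ _ _
  simp [E.ev, a11] at b3 b4 b6
  rcases b6 with ⟨b6, rfl⟩ | ⟨b6, b7, -, b8⟩
  · refine (Ht.iteF (by simp [E.ok]; omega) (by trivial) (by simp [E.ev, b6])
      (.set (by simp [E.ok]; omega) (q2 _ (by simp [E.ev]) (by simpa) ?_))).mono (by omega)
        fun _ => id
    simpa using i2 _ _ _ _ aI (by rw [b4, aB.pr d _ le_rfl]) b5
  rw [pr, ← mul_assoc, ← b4, aB b b7] at b8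
  rw [aB.pr d b b7.le] at b4
  have x1 := blk b7 B
  have c1 : r' 1 = B := by rw [f1 1 (by omega), a1]
  have c11 : r' 11 = B * B := by rw [f1 11 (by omega), a11]
  refine Ht.iteT (by simp [E.ok]; omega) (by trivial) (by simp [E.ev, b6]) (.seq (.set ?_
    (.seq (.set ?_ (.seq (.set ?_ (.seq (.set ?_ (.seq (scan_ok hd hK hW g1 g0 (L := B) am
      ?_ ?_ ?_ ?_ ?_ fun r'' e1 e2 j e3 e4 e5 e6 => ?_))))))))))
  iterate 4 (simp [E.ok, E.ev, c1, c11, b3] <;> omega)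
  · simpa [E.ev]
  · simp [E.ev, c1]
  · simp [E.ev, c1, c11, b3]; omega
  · simp [E.ev]
  · simpa [E.ev]
  have f2 : ∀ i, i < 2 ∨ 8 < i → r'' i = r i := fun i hi => by
    rw [e1 i (by omega), ← f1 i (by omega)]; simp only [update_apply]; split_ifs <;> omega
  have f8 : r'' 8 = b := by rw [e1 8 (by omega)]; simp [E.ev, b3, c11]
  clear e1
  show Ht W _ ⟨r'', m⟩ _ _
  simp [E.ev, c1, c11, b3] at e3 e4 e6
  obtain ⟨-, e6, e7, e8⟩ := e6.resolve_left fun h => e5 (by rw [e4, h.2]; exact b8)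
  have p1 : ∀ j, d (r' 2) * pr d m (b * B) j = d (r 9) * pr d m 0 (b * B + j) := fun j => by
    rw [b4, pr_add, zero_add, mul_assoc]
  rw [p1] at e4 e7 e8
  rw [← add_assoc] at e7 e8
  have j1 : b * B + j < B * B := by omega
  have u1 := i1 _ _ _ aI _ j1 (e4 ▸ e5) e8
  have u2 := (i0 _ _ _ (u1 _ fun _ _ => rfl)).1
  have m1 : ∀ i, update m (b * B + j) 0 i < K := fun i => by
    rw [update_apply]; split_ifs; exacts [K0, am i]
  refine .seq (.tab (by omega) (by simpa [e7] using hK _) (by simp only [e7]; omega) (.seq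
    (.st (by trivial) (by simp [E.ok]; omega) (recomp_ok hd hK hW d0 (B := B) ?_ ?_ ?_ ?_ B2
      fun r3 v1 v v2 v3 => ?_))))
  · simpa [E.ev, e3] using m1
  · simp [f2, a1]
  · simpa [f8]
  · simp [f2, a11]
  simp only at v1
  simp [E.ev, e3, f8] at v3 ⊢
  have w1 : ∀ i < B * B, update (update m (b * B + j) 0) (B * B + b) v i =
      update m (b * B + j) 0 i := fun i hi => update_of_ne (by omega) _ _
  refine q1 _ ?_ ?_ (fun i => ?_) ?_ (fun b' hb' => ?_) ?_ _ j1 (fun h => e5 ?_) w1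
  · simp [v1, f2, a1]
  · simp [v1, f2, a11]
  · show update (update m (b * B + j) 0) (B * B + b) v i < K
    rw [update_apply]; split_ifs; exacts [v2, m1 i]
  · simp [v1, f2]
  · have y1 := blk hb' B
    rw [pr_congr d fun i hi => w1 _ (by omega)]
    rcases eq_or_ne b' b with rfl | hne
    · simpa using v3
    · simp only
      rw [update_of_ne (by omega), update_of_ne (by omega), aB b' hb']
      refine pr_congr d fun i hi => (update_of_ne (fun h => hne ?_) _ _).symm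
      rcases lt_trichotomy b' b with h' | h' | h'
      · have := blk h' B; omega
      · exact h'
      · have := blk h' B; omega
  · simpa [v1, e7] using u1 _ w1
  · rw [e4]
    simpa [pr, h, d0] using e8

theorem prog_ok (d0 : d 0 = 1) {g nx ot : ℕ → ℕ} {G : M → Prop} (g1 : ∀ f, G f → g (c f) = 1)
    (g0 : ∀ f, ¬G f → g (c f) = 0) (ot1 : ∀ x, ot x ≤ 1) {s0 n : ℕ} {Z : Prop}
    {I : ℕ → ℕ → (ℕ → ℕ) → Prop} (i0 : ∀ N s m, I N s m → s < K ∧ ¬G (d s))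
    (i1 : ∀ N s m, I N s m → ∀ j < N, ¬G (d s * pr d m 0 j) → G (d s * pr d m 0 (j + 1)) →
      ∀ m', (∀ i < N, m' i = update m j 0 i) → I N (nx (c (d s * pr d m 0 (j + 1)))) m')
    (i2 : ∀ N s m x, I N s m → d x = d s * pr d m 0 N → ¬G (d x) → (ot x = 1 ↔ Z))
    {σ : St} (h0 : σ.r 0 = n) (hm : ∀ i, σ.m i < K) (hz : ∀ i, n ≤ i → σ.m i = 0)
    (hI : ∀ N m, n ≤ N → (∀ i < N, m i = σ.m i) → I N s0 m) (hn : 4 * n + 4 < W) :
    Ht W (prog d c K g nx ot s0) σ (fun τ => τ.r 0 = 1 ↔ Z)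
      ((5 * (K * K + K + 7) + K + 50) * (n + 1) * (n.sqrt + 1)) := by
  classical
  have K0 : 0 < K := (Nat.zero_le _).trans_lt (hm 0)
  have K1 : K ≤ K * K := Nat.le_mul_self K
  set C := K * K + K + 7 with hC
  set R := n.sqrt + 1 with hR
  have R1 : R ≤ n + 1 := Nat.succ_le_succ n.sqrt_le_self
  have R2 : R * R + R < W := by have := n.sqrt_le; nlinarith
  refine Ht.mono (T := 1 + ((R * (1 + 1) + 1) + (1 + (1 + ((R * (R * C + 6 + 1 + 1) + 1) + (1 + (1 +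
    (((n + 1) * (3 * (R * C) + K + 20 + 1) + 1) + (K + 1))))))))) (.seq (.set ?_ (.seq
      (.wh 1 (fun k τ => τ.m = σ.m ∧ τ.r 0 = n ∧ τ.r 1 + k = R) ?_ ?_ ?_ R _ ?_)))) ?_ fun _ => id
  · simp [E.ok]; omega
  · rintro k τ ⟨-, -, h⟩
    simp only [E.ok, E.ev, true_and, and_true]
    nlinarith [Nat.mul_le_mul (show τ.r 1 ≤ R by omega) (show τ.r 1 ≤ R by omega)]
  · rintro k τ ⟨a1, a2, a3⟩ h
    simp only [E.ev, a2] at h
    have := Nat.le_sqrt.2 h.le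
    exact .set (by simp [E.ok, E.ev]; omega) ⟨k - 1, by omega, a1, by simpa, by simp [E.ev]; omega⟩
  · rintro k ⟨r, m⟩ ⟨rfl, a2, a3⟩ h
    simp only [E.ev] at h a2 a3
    obtain ⟨B, hB⟩ : ∃ B, r 1 = B := ⟨_, rfl⟩
    have B1 : B ≤ R := by omega
    have B2 : B * B + B < W := by nlinarith
    have B3 : B * C ≤ R * C := Nat.mul_le_mul_right _ B1
    rw [a2, hB, not_lt] at h
    refine .seq (.set ?_ (.seq (.set ?_ (.seq (.wh (R * C + 6 + 1) (fun k τ => τ.r 1 = B ∧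
      τ.r 11 = B * B ∧ B ≤ τ.r 8 + k ∧ τ.r 8 ≤ B ∧ (∀ i, τ.m i < K) ∧ Bl d τ.m B (τ.r 8) ∧
      ∀ i < B * B, τ.m i = σ.m i) (fun _ _ _ => ⟨by trivial, by trivial⟩) ?_ ?_ R _ ?_)))))
    iterate 2 (simp [E.ok, E.ev, hB] <;> omega)
    · rintro k τ ⟨b1, b2, b3, b4, b5, b6, b7⟩ h
      simp only [E.ev, b1] at h
      refine .seq ((recomp_ok hd hK hW d0 b5 b1 h b2 B2 fun r' v1 v v2 v3 => .set ?_
        ⟨k - 1, by omega, ?_, ?_, ?_, ?_, fun i => ?_, fun b hb => ?_, fun i hi => ?_⟩).mono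
        (by rw [← hC]; omega) fun _ => id)
      iterate 5 (simp [E.ok, E.ev, v1, b1, b2] <;> omega)
      · show update τ.m (B * B + τ.r 8) v i < K
        rw [update_apply]; split_ifs; exacts [v2, b5 i]
      · simp [E.ev, v1] at hb
        have y1 := blk (show b < B by omega) B
        rw [pr_congr d (m' := τ.m) fun i hi => update_of_ne (by omega) _ _]
        rcases hb.eq_or_lt with rfl | hb
        · simpa using v3
        · simp only
          rw [update_of_ne (by omega), b6 b hb]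
      · exact (update_of_ne (by omega) _ _).trans (b7 i hi)
    · rintro k τ ⟨b1, b2, b3, b4, b5, b6, b7⟩ h'
      simp only [E.ev, b1] at h'
      have s1 := hI _ _ h b7
      have s2 := (i0 _ _ _ s1).1
      refine .seq (.set ?_ (.seq (.set ?_ (.seq (.wh (3 * (R * C) + K + 20) (fun k τ =>
        τ.r 10 = 1 ∧ τ.r 1 = B ∧ τ.r 11 = B * B ∧ (∀ i, τ.m i < K) ∧ Bl d τ.m B B ∧
          I (B * B) (τ.r 9) τ.m ∧ ((Finset.range (B * B)).filter (τ.m · ≠ 0)).card < k ∨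
        τ.r 10 = 0 ∧ τ.r 2 < K ∧ (ot (τ.r 2) = 1 ↔ Z))
        (fun _ _ _ => ⟨by simp [E.ok]; omega, by trivial⟩) ?_ ?_ (n + 1) _ (Or.inl ?_))))))
      iterate 2 (simp [E.ok]; omega)
      · rintro k τ h1 h2
        obtain ⟨e1, e2, e3, e4, e5, e6, e7⟩ := h1.resolve_right fun h => by simp [E.ev, h.1] at h2
        refine (body_ok hd hK hW d0 g1 g0 i0 i1 i2 B2 τ.r τ.m _ e2 e3 e4 e5 e6 (fun τ' v1 v2 v3 v4 v5 v6 j v7 v8 v9 =>
          ⟨_, e7, Or.inl ⟨v4.trans e1, v1, v2, v3, v5, v6, Finset.card_lt_card ⟨fun i hi => ?_,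
            fun h => ?_⟩⟩⟩) fun τ' v1 v2 v3 => ⟨0, by omega, Or.inr ⟨v1, v2, v3⟩⟩).mono
            (by rw [← hC]; omega) fun _ => id
        · obtain ⟨h1, h2⟩ := Finset.mem_filter.1 hi
          refine Finset.mem_filter.2 ⟨h1, fun h => h2 ?_⟩
          rw [v9 i (Finset.mem_range.1 h1), update_apply]
          split_ifs; exacts [rfl, h]
        · exact (Finset.mem_filter.1 (h (Finset.mem_filter.2 ⟨Finset.mem_range.2 v7, v8⟩))).2
            (by rw [v9 j v7, update_self])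
      · rintro k τ h1 h2
        obtain ⟨-, e2, e3⟩ := h1.resolve_left fun h => by simp [E.ev, h.1] at h2
        exact .tab (by omega) e2 (by have := ot1 (τ.r 2); omega) (by simpa)
      · refine ⟨by simp [E.ev], by simpa, by simpa, b5, (by omega : τ.r 8 = B) ▸ b6,
          by simpa [E.ev], Nat.lt_succ_of_le ((Finset.card_le_card (t := Finset.range n)
            fun i hi => ?_).trans (by simp))⟩
        obtain ⟨h1, h2⟩ := Finset.mem_filter.1 hi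
        exact Finset.mem_range.2 (not_le.1 fun h => h2 ((b7 i (Finset.mem_range.1 h1)).trans (hz i h)))
    · exact ⟨by simpa, by simp [E.ev, hB], by simpa [E.ev], by simp [E.ev], hm,
        fun b hb => by simp [E.ev] at hb, fun _ _ => rfl⟩
  · exact ⟨rfl, by simpa, by simp [E.ev]⟩
  · have R0 : 1 ≤ R := by omega
    clear_value C R
    have x1 : R * (R * C) ≤ (n + 1) * (R * C) := Nat.mul_le_mul_right _ R1
    have x2 : R ≤ (n + 1) * R := Nat.le_mul_of_pos_left _ (by omega)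
    have x3 : (n + 1) * (K + 21) ≤ (n + 1) * (K + 21) * R := Nat.le_mul_of_pos_right _ R0
    have x4 : K ≤ (n + 1) * (R * C) := (show K ≤ C by omega).trans
      ((Nat.le_mul_of_pos_left _ R0).trans (Nat.le_mul_of_pos_left _ (by omega)))
    nlinarith

end Pool.Agent.H.MP_cf558f_lc
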